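import Pool.Agent.H30.VX.Targets
import Pool.Agent.H30.VX.Basic

/-!
Row NCC of the board vex_modules.
-/

set_option autoImplicit false

open Finset Pool.Agent.H48.CE Pool.Agent.H30.VR Pool.Agent.H30.VX

namespace Pool.Agent.H34.VX

theorem card_loss {V : Type} [DecidableEq V] (G : SimpleGraph V) (W : Finset V) (x y : V) :
    (nb G W x).card ≤ (nb G ((W.erase x).erase y) x).card + 1 := by
  have h : nb G W x ⊆ insert y (nb G ((W.erase x).erase y) x) := by
    intro w hw
    rw [mem_nb] at hw
    rw [mem_insert, mem_nb, mem_erase, mem_erase]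
    by_cases h1 : w = y
    · exact Or.inl h1
    · refine Or.inr ⟨⟨h1, ?_, hw.1⟩, hw.2⟩
      rintro rfl
      exact G.irrefl hw.2
  exact (card_le_card h).trans (card_insert_le _ _)

theorem pf_NCC (hNCP : T_NCP) : T_NCC := by
  classical
  intro V G W μ hNC hW N hN3 hNW
  obtain ⟨x, hx⟩ : W.Nonempty := by
    rw [← card_pos]; omega
  have h1 := hNC x hx
  obtain ⟨y, hy⟩ : (nb G W x).Nonempty := by
    rw [← card_pos]; omega
  rw [mem_nb] at hy
  have hxy : x ≠ y := hy.2.ne
  have hyW : y ∈ W := hy.1
  have h2 := hNC y hyW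
  have hye : y ∈ W.erase x := mem_erase.2 ⟨hxy.symm, hyW⟩
  have hc : ((W.erase x).erase y).card = W.card - 2 := by
    rw [card_erase_of_mem hye, card_erase_of_mem hx]; omega
  have hsub : (W.erase x).erase y ⊆ W := (erase_subset _ _).trans (erase_subset _ _)
  have hNC' : NC G μ ((W.erase x).erase y) := hNC.sub hsub
  have h3 := card_loss G W x y
  have h4 : (nb G W y).card ≤ (nb G ((W.erase x).erase y) y).card + 1 := by
    have h := card_loss G W y x
    rwa [erase_right_comm] at h
  have hx' : x ∉ (W.erase x).erase y := fun h => notMem_erase x W (mem_of_mem_erase h)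
  have hy' : y ∉ (W.erase x).erase y := notMem_erase _ _
  obtain ⟨F, hF, hP, -⟩ := hNCP G ((W.erase x).erase y) μ x y hNC' hx' hy' hxy
    (by rw [hc]; omega) (by rw [hc]; omega) (by rw [hc]; omega) (N - 2) (by omega)
    (by rw [hc]; omega)
  have hQ : Pt G x [] y := by
    refine ⟨?_, ?_⟩
    · simp [hxy]
    · simp [hy.2]
  have h5 := cy_of_two hP hQ (by simp) (by simp; omega)
  have h6 : F.length + ([] : List V).length + 2 = N := by
    rw [hF]; simp; omega
  rwa [h6] at h5

end Pool.Agent.H34.VX
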